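import Pool.Agent.H607R3.PS.Stmts

set_option autoImplicit false

/-! # Task `Base` of the project PS: the regular local ring of dimension three -/

namespace Pool.Agent.H291R3.PSB

open PowerSeries IsLocalRing Pool.Agent.H607R3.PS

lemma mem_max_iff {S : Type} [CommRing S] [IsLocalRing S] (f : PowerSeries S) :
    f ∈ maximalIdeal (PowerSeries S) ↔ constantCoeff f ∈ maximalIdeal S := by
  rw [mem_maximalIdeal, mem_maximalIdeal, mem_nonunits_iff, mem_nonunits_iff,
    PowerSeries.isUnit_iff_constantCoeff]

lemma dim_succ {S : Type} [CommRing S] [IsLocalRing S] [IsNoetherianRing S] [IsDomain S] :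
    ringKrullDim (PowerSeries S) = ringKrullDim S + 1 := by
  have hX : (X : PowerSeries S) ∈ nonZeroDivisors (PowerSeries S) :=
    mem_nonZeroDivisors_of_ne_zero X_ne_zero
  have hm : (X : PowerSeries S) ∈ maximalIdeal (PowerSeries S) := by
    rw [mem_max_iff, constantCoeff_X]
    exact Ideal.zero_mem _
  have h1 := ringKrullDim_quotient_span_singleton_succ_eq_ringKrullDim_of_mem_nonZeroDivisors hX hm
  have hker : Ideal.span {(X : PowerSeries S)} =
      RingHom.ker (constantCoeff : PowerSeries S →+* S) := by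
    ext f
    rw [Ideal.mem_span_singleton, X_dvd_iff, RingHom.mem_ker]
  have e : (PowerSeries S ⧸ Ideal.span {(X : PowerSeries S)}) ≃+* S :=
    (Ideal.quotEquivOfEq hker).trans
      (RingHom.quotientKerEquivOfSurjective (f := (constantCoeff : PowerSeries S →+* S))
        constantCoeff_surj)
  rw [← h1, ringKrullDim_eq_of_ringEquiv e]

abbrev R1 : Type := PowerSeries ℚ
abbrev R2 : Type := PowerSeries R1
abbrev T : Type := PowerSeries R2

noncomputable def al : T := X
noncomputable def be : T := C (X : R2)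
noncomputable def ga : T := C (C (X : R1))

lemma mul_C_coeff {S : Type} [CommRing S] (f : PowerSeries S) (c : S) (n : ℕ) :
    coeff n (C c * f) = c * coeff n f := coeff_C_mul n f c

lemma decomp1 {S : Type} [CommRing S] (f : PowerSeries S) :
    ∃ g : PowerSeries S, f = C (constantCoeff f) + X * g := by
  refine ⟨mk fun p => coeff (p + 1) f, ?_⟩
  rw [← sub_const_eq_X_mul_shift]
  ring

lemma mem_span3 (f : T) :
    f ∈ (Ideal.span {al, be, ga} : Ideal T) ↔
      constantCoeff (constantCoeff (constantCoeff f)) = 0 := by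
  constructor
  · intro h
    have hle : (Ideal.span {al, be, ga} : Ideal T) ≤ RingHom.ker
        (((constantCoeff : R1 →+* ℚ).comp (constantCoeff : R2 →+* R1)).comp
          (constantCoeff : T →+* R2)) := by
      rw [Ideal.span_le]
      intro x hx
      simp only [Set.mem_insert_iff, Set.mem_singleton_iff] at hx
      rw [SetLike.mem_coe, RingHom.mem_ker]
      rcases hx with rfl | rfl | rfl
      · simp [al]
      · simp [be]
      · simp [ga]
    exact hle h
  · intro h
    obtain ⟨g1, hg1⟩ := decomp1 f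
    obtain ⟨g2, hg2⟩ := decomp1 (constantCoeff f)
    obtain ⟨g3, hg3⟩ := decomp1 (constantCoeff (constantCoeff f))
    rw [h, map_zero, zero_add] at hg3
    have h1 : f = al * g1 + be * C g2 + ga * C (C g3) := by
      rw [hg1, hg2, hg3]
      simp only [map_add, map_mul, al, be, ga]
      ring
    rw [h1]
    refine Ideal.add_mem _ (Ideal.add_mem _ ?_ ?_) ?_
    · exact Ideal.mul_mem_right _ _ (Ideal.subset_span (by simp))
    · exact Ideal.mul_mem_right _ _ (Ideal.subset_span (by simp))
    · exact Ideal.mul_mem_right _ _ (Ideal.subset_span (by simp))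

lemma span2_eq : (Ideal.span {al, be} : Ideal T) = RingHom.ker
    ((constantCoeff : R2 →+* R1).comp (constantCoeff : T →+* R2)) := by
  apply le_antisymm
  · rw [Ideal.span_le]
    intro x hx
    simp only [Set.mem_insert_iff, Set.mem_singleton_iff] at hx
    rw [SetLike.mem_coe, RingHom.mem_ker]
    rcases hx with rfl | rfl
    · simp [al]
    · simp [be]
  · intro f hf
    rw [RingHom.mem_ker, RingHom.comp_apply] at hf
    obtain ⟨g1, hg1⟩ := decomp1 f
    obtain ⟨g2, hg2⟩ := decomp1 (constantCoeff f)
    rw [hf, map_zero, zero_add] at hg2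
    have h1 : f = al * g1 + be * C g2 := by
      rw [hg1, hg2]
      simp only [map_mul, al, be]
      ring
    rw [h1]
    refine Ideal.add_mem _ ?_ ?_
    · exact Ideal.mul_mem_right _ _ (Ideal.subset_span (by simp))
    · exact Ideal.mul_mem_right _ _ (Ideal.subset_span (by simp))

lemma reg3 : Reg3 (al ^ 4) (be ^ 2) (ga ^ 4) := by
  have hal : (al ^ 4 : T) ≠ 0 := pow_ne_zero _ X_ne_zero
  have hbe : be ^ 2 = C ((X : R2) ^ 2) := by rw [be, map_pow]
  have hga : ga ^ 4 = C (C ((X : R1) ^ 4)) := by rw [ga, map_pow, map_pow]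
  refine ⟨?_, ?_, ?_⟩
  · intro a ha
    exact (mul_eq_zero.mp ha).resolve_left hal
  · intro a b hab
    have hd : (X : T) ^ 4 ∣ a := by
      rw [X_pow_dvd_iff]
      intro m hm
      have h1 : coeff m (be ^ 2 * a) = 0 := by
        rw [hab]
        exact X_pow_dvd_iff.mp ⟨b, rfl⟩ m hm
      rw [hbe, coeff_C_mul] at h1
      exact (mul_eq_zero.mp h1).resolve_left (pow_ne_zero _ X_ne_zero)
    obtain ⟨a', ha'⟩ := hd
    exact ⟨a', ha'⟩
  · intro c p q hc
    -- the first four coefficients of `c` are divisible by `X ^ 2`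
    have key : ∀ n < 4, ∃ d : R2, coeff n c = X ^ 2 * d := by
      intro n hn
      have h1 : coeff n (ga ^ 4 * c) = C ((X : R1) ^ 4) * coeff n c := by
        rw [hga, coeff_C_mul]
      have h2 : coeff n (al ^ 4 * p) = 0 := X_pow_dvd_iff.mp ⟨p, rfl⟩ n hn
      have h3 : coeff n (be ^ 2 * q) = (X : R2) ^ 2 * coeff n q := by
        rw [hbe, coeff_C_mul]
      have h4 : C ((X : R1) ^ 4) * coeff n c = (X : R2) ^ 2 * coeff n q := by
        rw [← h1, hc, map_add, h2, h3, zero_add]
      have h5 : (X : R2) ^ 2 ∣ coeff n c := by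
        rw [X_pow_dvd_iff]
        intro m hm
        have h6 : coeff m (C ((X : R1) ^ 4) * coeff n c) = 0 := by
          rw [h4]
          exact X_pow_dvd_iff.mp ⟨_, rfl⟩ m hm
        rw [coeff_C_mul] at h6
        exact (mul_eq_zero.mp h6).resolve_left (pow_ne_zero _ X_ne_zero)
      obtain ⟨d, hd⟩ := h5
      exact ⟨d, hd⟩
    choose! d hd using key
    have h7 : (X : T) ^ 4 ∣ c - be ^ 2 * (mk d : T) := by
      rw [X_pow_dvd_iff]
      intro m hm
      rw [map_sub, hbe, coeff_C_mul, coeff_mk, hd m hm, sub_self]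
    obtain ⟨p', hp'⟩ := h7
    refine ⟨p', mk d, ?_⟩
    have h8 : (X : T) = al := rfl
    rw [h8] at hp'
    rw [← hp']
    ring

lemma base : Base T al be ga := by
  refine ⟨?_, ?_, ?_, reg3, ?_⟩
  · ext f
    rw [mem_max_iff, mem_max_iff, mem_max_iff, mem_span3]
    rw [IsLocalRing.maximalIdeal_eq_bot, Ideal.mem_bot]
  · rw [span2_eq]
    exact RingHom.ker_isPrime _
  · rw [span2_eq, RingHom.mem_ker]
    simp only [ga, RingHom.comp_apply, constantCoeff_C]
    exact X_ne_zero
  · rw [dim_succ, dim_succ, dim_succ, ringKrullDim_eq_zero_of_field]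
    norm_num

end Pool.Agent.H291R3.PSB

namespace Pool.Agent.H291R3.PSB

theorem taskBase : Pool.Agent.H607R3.PS.TaskBase :=
  ⟨T, inferInstance, inferInstance, inferInstance, inferInstance, al, be, ga, base⟩

end Pool.Agent.H291R3.PSB
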